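import Pool.Agent.T2H92.RZ.ALL
import Pool.Agent.T2H51.PZ.Consec

open MeasureTheory ProbabilityTheory Filter

namespace Pool.Agent.Results.MP_ca0a54_nt.RandomlyPerturbedZeros

/-- multiplicity of `s` as a zero of the Riemann zeta function (order of vanishing at `s`) -/
noncomputable def zmult (s : ℂ) : ℕ := analyticOrderNatAt riemannZeta s

/-- the number of nontrivial zeros of `ζ` with ordinate in `(0, t]`, with multiplicity -/
noncomputable def NZ (t : ℝ) : ℕ :=
  ∑ᶠ s ∈ {s : ℂ | riemannZeta s = 0 ∧ 0 < s.re ∧ s.re < 1 ∧ 0 < s.im ∧ s.im ≤ t}, zmult s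

/-- for `n ≥ 1`: the `n`-th positive ordinate of a nontrivial zero of `ζ`, the ordinates being
listed in nondecreasing order and repeated according to multiplicity -/
noncomputable def ord (n : ℕ) : ℝ := sInf {t : ℝ | n ≤ NZ t}

/-- the `n`-th ordinate moved by `x n` times the mean spacing `2π / log (ord n)` at its height -/
noncomputable def pord (x : ℕ → ℝ) (n : ℕ) : ℝ := ord n + x n * (2 * Real.pi / Real.log (ord n))

/-- Let `ξ n` be independent random variables with `|ξ n| ≤ 1/8`, and with probability at least `p > 0` of being `≥ η` and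
at least `p` of being `≤ -η`, where `η > 0`. Move the `n`-th ordinate by `ξ n` times the mean spacing at its height.
For every `δ < 2η`, almost surely there is `T0` such that for every `T ≥ T0` two consecutive moved ordinates (no moved
ordinate strictly between them) lie in `[T, 2T]` at distance less than `(1/2 - δ) (2π / log T)`. -/
theorem result {Ω : Type} [MeasurableSpace Ω] (P : Measure Ω) [IsProbabilityMeasure P] (ξ : ℕ → Ω → ℝ) (η p δ : ℝ)
    (hδ : 0 < δ) (hδη : δ < 2 * η) (hp : 0 < p) (hm : ∀ n, Measurable (ξ n)) (hi : iIndepFun ξ P)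
    (hb : ∀ n ω, |ξ n ω| ≤ 1 / 8) (hu : ∀ n, p ≤ P.real {ω | η ≤ ξ n ω})
    (hd : ∀ n, p ≤ P.real {ω | ξ n ω ≤ -η}) :
    ∀ᵐ ω ∂P, ∃ T0 : ℝ, ∀ T : ℝ, T0 ≤ T → ∃ m n : ℕ, 1 ≤ m ∧ 1 ≤ n ∧ m ≠ n ∧
      T ≤ pord (fun k => ξ k ω) m ∧ pord (fun k => ξ k ω) m ≤ pord (fun k => ξ k ω) n ∧
      pord (fun k => ξ k ω) n ≤ 2 * T ∧
      (∀ k : ℕ, 1 ≤ k → ¬ (pord (fun i => ξ i ω) m < pord (fun i => ξ i ω) k ∧
        pord (fun i => ξ i ω) k < pord (fun i => ξ i ω) n)) ∧
      pord (fun k => ξ k ω) n - pord (fun k => ξ k ω) m < (1 / 2 - δ) * (2 * Real.pi / Real.log T) := by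
  have hu' : ∀ n, ENNReal.ofReal p ≤ P {ω | η ≤ ξ n ω} := fun n => by
    rw [ENNReal.ofReal_le_iff_le_toReal (measure_ne_top P _)]
    exact hu n
  have hd' : ∀ n, ENNReal.ofReal p ≤ P {ω | ξ n ω ≤ -η} := fun n => by
    rw [ENNReal.ofReal_le_iff_le_toReal (measure_ne_top P _)]
    exact hd n
  have key := Pool.Agent.T2H92.RZ.rz_main Ω P ξ hm hi hb η p δ hδ hδη hp hu' hd'
  filter_upwards [key] with ω hω
  obtain ⟨T1, hT1⟩ := hω
  refine ⟨T1, fun T hT => ?_⟩
  obtain ⟨m, n, hm1, hn1, hmn, h2, h3, h4, h5⟩ := hT1 T hT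
  have hlim : Tendsto (Pool.Agent.T2H92.RZ.pert fun k => ξ k ω) atTop atTop :=
    Pool.Agent.T2H51.PZ.tendsto_pert SG.ord_tendsto fun n => hb n ω
  exact Pool.Agent.T2H51.PZ.consec_aux hlim hm1 hn1 hmn h2 h4 h3 h5

end Pool.Agent.Results.MP_ca0a54_nt.RandomlyPerturbedZeros
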